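import Mathlib

/-!
# Pure simplicial forests have the strong Lefschetz property in characteristic zero (MP_cb4cd2_al)
-/

namespace Pool.Agent.Results.MP_cb4cd2_al.StrongLefschetz

open MvPolynomial

universe u

/-! ### Definitions -/

section Defs

variable {n : ℕ}

/-- A simplicial complex on `[n]`: a family of subsets closed under taking subsets. -/
def IsComplex (Δ : Set (Finset (Fin n))) : Prop :=
  ∀ σ ∈ Δ, ∀ τ, τ ⊆ σ → τ ∈ Δ

/-- The facets of `Δ`: its maximal faces. -/
def Facets (Δ : Set (Finset (Fin n))) : Set (Finset (Fin n)) :=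
  {F | F ∈ Δ ∧ ∀ G ∈ Δ, F ⊆ G → G = F}

/-- `Δ` is pure: all facets have the same number of elements. -/
def IsPure (Δ : Set (Finset (Fin n))) : Prop :=
  ∃ m : ℕ, ∀ F ∈ Facets Δ, F.card = m

/-- The complex generated by a set of faces. -/
def Generated (S : Set (Finset (Fin n))) : Set (Finset (Fin n)) :=
  {σ | ∃ F ∈ S, σ ⊆ F}

/-- `F` is a leaf of `Δ`: a facet which is the only facet, or such that some facet `G ≠ F`
satisfies `F ∩ F' ⊆ F ∩ G` for every facet `F' ≠ F`. -/
def IsLeaf (Δ : Set (Finset (Fin n))) (F : Finset (Fin n)) : Prop :=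
  F ∈ Facets Δ ∧ ((∀ F' ∈ Facets Δ, F' = F) ∨
    ∃ G ∈ Facets Δ, G ≠ F ∧ ∀ F' ∈ Facets Δ, F' ≠ F → F ∩ F' ⊆ F ∩ G)

/-- Two facets lie in the same connected component of `Δ`: they are joined by a chain of facets
in which consecutive ones meet. -/
def SameComponent (Δ : Set (Finset (Fin n))) (F G : Finset (Fin n)) : Prop :=
  Relation.ReflTransGen (fun A B => B ∈ Facets Δ ∧ (A ∩ B).Nonempty) F G

/-- `Δ` is connected. -/
def IsConnected (Δ : Set (Finset (Fin n))) : Prop :=
  ∀ F ∈ Facets Δ, ∀ G ∈ Facets Δ, SameComponent Δ F G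

/-- `Δ` is a simplicial tree: it is connected and every subcomplex generated by a nonempty set of
its facets has a leaf. -/
def IsTree (Δ : Set (Finset (Fin n))) : Prop :=
  IsConnected Δ ∧ ∀ S ⊆ Facets Δ, S.Nonempty → ∃ F, IsLeaf (Generated S) F

/-- The connected component of `Δ` containing the facet `F`. -/
def Component (Δ : Set (Finset (Fin n))) (F : Finset (Fin n)) : Set (Finset (Fin n)) :=
  Generated {G | G ∈ Facets Δ ∧ SameComponent Δ F G}

/-- `Δ` is a simplicial forest: each connected component is a simplicial tree. -/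
def IsForest (Δ : Set (Finset (Fin n))) : Prop :=
  ∀ F ∈ Facets Δ, IsTree (Component Δ F)

variable (K : Type u) [Field K]

/-- The ideal `N(Δ) + (x_1^2, ..., x_n^2)`, where the Stanley-Reisner ideal `N(Δ)` is generated by
the products of the variables in the non-faces. -/
noncomputable def idealOf (Δ : Set (Finset (Fin n))) : Ideal (MvPolynomial (Fin n) K) :=
  Ideal.span {p | ∃ σ : Finset (Fin n), σ ∉ Δ ∧ p = ∏ i ∈ σ, X i} ⊔
    Ideal.span {p | ∃ i, p = X i ^ 2}

variable {K}

/-- The component of degree `i` of the graded algebra `S / I`. -/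
def degPart (I : Ideal (MvPolynomial (Fin n) K)) (i : ℕ) : Set (MvPolynomial (Fin n) K ⧸ I) :=
  {a | ∃ p : MvPolynomial (Fin n) K, p.IsHomogeneous i ∧ Ideal.Quotient.mk I p = a}

/-- The class in `S / I` of the linear form `∑ c_v x_v`. -/
noncomputable def linForm (I : Ideal (MvPolynomial (Fin n) K)) (c : Fin n → K) :
    MvPolynomial (Fin n) K ⧸ I :=
  Ideal.Quotient.mk I (∑ v, C (c v) * X v)

/-- All multiplication maps `× L^j : A_i → A_{i+j}`, for `A = S / I` and `L = ∑ c_v x_v`, have
full rank, that is, are injective or surjective. -/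
def FullRank (I : Ideal (MvPolynomial (Fin n) K)) (c : Fin n → K) : Prop :=
  ∀ i j : ℕ, (∀ a ∈ degPart I i, linForm I c ^ j * a = 0 → a = 0) ∨
    (∀ b ∈ degPart I (i + j), ∃ a ∈ degPart I i, linForm I c ^ j * a = b)

/-- The strong Lefschetz property of `S / I`: the maps have full rank for a general linear form
`L`, i.e. for all coefficient vectors outside the zero set of some nonzero polynomial. -/
def HasSLP (I : Ideal (MvPolynomial (Fin n) K)) : Prop :=
  ∃ P : MvPolynomial (Fin n) K, P ≠ 0 ∧ ∀ c : Fin n → K, eval c P ≠ 0 → FullRank I c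

end Defs

/-! ### The combinatorial model -/

section Model

variable {V : Type*} [DecidableEq V] {K : Type*} [Field K] (c : V → K)

/-- The up operator. -/
def up (f : Finset V → K) : Finset V → K := fun τ => ∑ v ∈ τ, c v * f (τ.erase v)

theorem up_add (f g : Finset V → K) : up c (f + g) = up c f + up c g := by
  funext τ
  simp [up, mul_add, Finset.sum_add_distrib]

theorem upIter_add (j : ℕ) (f g : Finset V → K) :
    (up c)^[j] (f + g) = (up c)^[j] f + (up c)^[j] g := by
  induction j generalizing f g with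
  | zero => rfl
  | succ j ih => rw [Function.iterate_succ_apply, up_add, ih]; rfl

theorem up_smul (a : K) (f : Finset V → K) : up c (a • f) = a • up c f := by
  funext τ
  simp only [up, Pi.smul_apply, smul_eq_mul, Finset.mul_sum]
  exact Finset.sum_congr rfl fun v _ => by ring

theorem upIter_smul (j : ℕ) (a : K) (f : Finset V → K) :
    (up c)^[j] (a • f) = a • (up c)^[j] f := by
  induction j generalizing f with
  | zero => rfl
  | succ j ih => rw [Function.iterate_succ_apply, up_smul, ih]; rfl

theorem upIter_zero (j : ℕ) : (up c)^[j] (0 : Finset V → K) = 0 := by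
  have := upIter_smul c j (0 : K) 0
  simpa using this

/-- `(up c)^[j] f τ` only depends on the values of `f` at the subsets of `τ` with `|τ| - j`
elements. -/
theorem upIter_congr (j : ℕ) {i : ℕ} {f g : Finset V → K} {τ : Finset V} (hτ : τ.card = i + j)
    (h : ∀ σ, σ ⊆ τ → σ.card = i → f σ = g σ) : (up c)^[j] f τ = (up c)^[j] g τ := by
  induction j generalizing i f g with
  | zero => exact h τ subset_rfl (by simpa using hτ)
  | succ j ih =>
    rw [Function.iterate_succ_apply, Function.iterate_succ_apply]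
    refine ih (i := i + 1) (by omega) fun σ hσ hcard => ?_
    refine Finset.sum_congr rfl fun v hv => ?_
    rw [h _ ((Finset.erase_subset _ _).trans hσ)
      (by rw [Finset.card_erase_of_mem hv, hcard]; rfl)]

theorem upIter_eq_zero (j : ℕ) (f : Finset V → K) {τ : Finset V} (hτ : τ.card < j) :
    (up c)^[j] f τ = 0 := by
  induction j generalizing τ with
  | zero => omega
  | succ j ih =>
    rw [Function.iterate_succ_apply']
    refine Finset.sum_eq_zero fun v hv => ?_
    have : 0 < τ.card := Finset.card_pos.2 ⟨v, hv⟩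
    rw [ih (by rw [Finset.card_erase_of_mem hv]; omega), mul_zero]

theorem upIter_succ (j : ℕ) (f : Finset V → K) (τ : Finset V) :
    (up c)^[j + 1] f τ = ∑ w ∈ τ, c w * (up c)^[j] f (τ.erase w) := by
  rw [Function.iterate_succ_apply']
  rfl

/-- The shift. -/
def shift (v : V) (f : Finset V → K) : Finset V → K := fun ρ => f (insert v ρ)

theorem up_insert (v : V) (f : Finset V → K) {τ : Finset V} (hv : v ∉ τ) :
    up c f (insert v τ) = c v * f τ + ∑ w ∈ τ, c w * f (insert v (τ.erase w)) := by
  unfold up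
  rw [Finset.sum_insert hv, Finset.erase_insert hv]
  congr 1
  refine Finset.sum_congr rfl fun w hw => ?_
  have : v ≠ w := fun h => hv (h ▸ hw)
  rw [Finset.erase_insert_of_ne this]

theorem upIter_insert (v : V) (j : ℕ) (f : Finset V → K) {τ : Finset V} (hv : v ∉ τ) :
    (up c)^[j + 1] f (insert v τ) =
      (up c)^[j + 1] (shift v f) τ + (j + 1 : K) * c v * (up c)^[j] f τ := by
  induction j generalizing τ with
  | zero =>
    simp only [Nat.cast_zero, zero_add, Function.iterate_one, Function.iterate_zero, id,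
      one_mul]
    rw [up_insert c v f hv]
    unfold up shift
    ring
  | succ j ih =>
    rw [Function.iterate_succ_apply', up_insert c v _ hv]
    have h1 : ∀ w ∈ τ, c w * (up c)^[j + 1] f (insert v (τ.erase w)) =
        c w * (up c)^[j + 1] (shift v f) (τ.erase w) +
          (j + 1 : K) * c v * (c w * (up c)^[j] f (τ.erase w)) := by
      intro w _
      rw [ih (fun h => hv (Finset.mem_of_mem_erase h))]
      ring
    rw [Finset.sum_congr rfl h1, Finset.sum_add_distrib, ← Finset.mul_sum]
    have h2 : ∑ w ∈ τ, c w * (up c)^[j + 1] (shift v f) (τ.erase w) =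
        (up c)^[j + 1 + 1] (shift v f) τ := by
      rw [Function.iterate_succ_apply' (up c) (j + 1)]
      rfl
    have h3 : ∑ w ∈ τ, c w * (up c)^[j] f (τ.erase w) = (up c)^[j + 1] f τ := by
      rw [Function.iterate_succ_apply' (up c) j]
      rfl
    rw [h2, h3]
    push_cast
    ring

variable [CharZero K]

/-- Injectivity for the Boolean lattice. -/
theorem boolean_injective (F : Finset V) (hc : ∀ v ∈ F, c v ≠ 0) :
    ∀ i j : ℕ, 2 * i + j ≤ F.card → ∀ f : Finset V → K,
      (∀ τ, τ ⊆ F → τ.card = i + j → (up c)^[j] f τ = 0) →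
      ∀ σ, σ ⊆ F → σ.card = i → f σ = 0 := by
  induction F using Finset.induction_on with
  | empty =>
    intro i j hij f hf σ hσ hcard
    have hj : j = 0 := by simp at hij; omega
    subst hj
    exact hf σ hσ (by simpa using hcard)
  | insert v F hv ih =>
    intro i j hij f hf σ hσ hcard
    have ih' := ih fun w hw => hc w (Finset.mem_insert_of_mem hw)
    have hcv : c v ≠ 0 := hc v (Finset.mem_insert_self v F)
    rw [Finset.card_insert_of_notMem hv] at hij
    rcases j with _ | j
    · exact hf σ hσ (by simpa using hcard)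
    have hj0 : (j + 1 : K) ≠ 0 := by exact_mod_cast Nat.succ_ne_zero j
    have ha : ∀ τ, τ ⊆ F → τ.card = i + (j + 1) → (up c)^[j + 1] f τ = 0 := fun τ hτ h =>
      hf τ (hτ.trans (Finset.subset_insert v F)) h
    have hb : ∀ τ, τ ⊆ F → τ.card = i + j →
        (up c)^[j + 1] (shift v f) τ + (j + 1 : K) * c v * (up c)^[j] f τ = 0 := by
      intro τ hτ h
      rw [← upIter_insert c v j f (fun h' => hv (hτ h'))]
      refine hf _ (Finset.insert_subset_insert v hτ) ?_
      rw [Finset.card_insert_of_notMem (fun h' => hv (hτ h')), h]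
      rfl
    -- it suffices to treat the two parts
    suffices H : (∀ σ, σ ⊆ F → σ.card = i → f σ = 0) ∧
        (∀ σ, σ ⊆ F → σ.card + 1 = i → shift v f σ = 0) by
      by_cases hvσ : v ∈ σ
      · have h1 : insert v (σ.erase v) = σ := Finset.insert_erase hvσ
        have := H.2 (σ.erase v) ?_ ?_
        · rw [← h1]; exact this
        · intro w hw
          have := hσ (Finset.mem_of_mem_erase hw)
          rcases Finset.mem_insert.1 this with h | h
          · exact absurd h (Finset.ne_of_mem_erase hw)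
          · exact h
        · have h2 := Finset.card_insert_of_notMem (Finset.notMem_erase v σ)
          rw [h1] at h2
          omega
      · refine H.1 σ (fun w hw => ?_) hcard
        rcases Finset.mem_insert.1 (hσ hw) with h | h
        · exact absurd (h ▸ hw) hvσ
        · exact h
    by_cases hcase : 2 * i + (j + 1) ≤ F.card
    · have h1 := ih' i (j + 1) hcase f ha
      refine ⟨h1, ?_⟩
      rcases i with _ | i
      · intro σ _ h; omega
      have h2 := ih' i (j + 1) (by omega) (shift v f) ?_
      · intro σ hσ h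
        exact h2 σ hσ (by omega)
      · intro τ hτ h
        have h3 := hb τ hτ (by omega)
        have h4 : (up c)^[j] f τ = 0 := by
          rw [upIter_congr c j (i := i + 1) (f := f) (g := 0) (by omega)
            (fun σ' hσ' h' => h1 σ' (hσ'.trans hτ) h'), upIter_zero]
          rfl
        rwa [h4, mul_zero, add_zero] at h3
    · have heq : 2 * i + j = F.card := by omega
      have h2 : ∀ σ, σ ⊆ F → σ.card + 1 = i → shift v f σ = 0 := by
        rcases i with _ | i
        · intro σ _ h; omega
        have h2 := ih' i (j + 2) (by omega) (shift v f) ?_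
        · intro σ hσ h
          exact h2 σ hσ (by omega)
        · intro τ hτ h
          have h3 : ∑ w ∈ τ, c w * ((up c)^[j + 1] (shift v f) (τ.erase w) +
              (j + 1 : K) * c v * (up c)^[j] f (τ.erase w)) = 0 := by
            refine Finset.sum_eq_zero fun w hw => ?_
            rw [hb (τ.erase w) ((Finset.erase_subset _ _).trans hτ)
              (by rw [Finset.card_erase_of_mem hw]; omega), mul_zero]
          have h4 : (up c)^[j + 2] (shift v f) τ + (j + 1 : K) * c v * (up c)^[j + 1] f τ = 0 := by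
            rw [upIter_succ c (j + 1), upIter_succ c j, ← h3, Finset.mul_sum,
              ← Finset.sum_add_distrib]
            refine Finset.sum_congr rfl fun w _ => ?_
            ring
          rwa [ha τ hτ (by omega), mul_zero, add_zero] at h4
      refine ⟨?_, h2⟩
      refine ih' i j heq.le f fun τ hτ h => ?_
      have h3 := hb τ hτ h
      have h4 : (up c)^[j + 1] (shift v f) τ = 0 := by
        rcases i with _ | i
        · exact upIter_eq_zero c (j + 1) _ (by omega)
        · rw [upIter_congr c (j + 1) (i := i) (f := shift v f) (g := 0) (by omega)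
            (fun σ' hσ' h' => h2 σ' (hσ'.trans hτ) (by omega)), upIter_zero]
          rfl
      rw [h4, zero_add] at h3
      exact (mul_eq_zero.1 h3).resolve_left (mul_ne_zero hj0 hcv)

/-- Gluing a function on the subsets not containing `v` and one on those containing `v`. -/
def glue (v : V) (f k : Finset V → K) : Finset V → K := fun ρ =>
  if v ∈ ρ then k (ρ.erase v) else f ρ

omit [CharZero K] in
theorem upIter_glue (v : V) (f k : Finset V → K) (j : ℕ) {τ : Finset V} (hv : v ∉ τ) :
    (up c)^[j] (glue v f k) τ = (up c)^[j] f τ := by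
  by_cases h : j ≤ τ.card
  · refine upIter_congr c j (i := τ.card - j) (by omega) fun σ hσ _ => ?_
    unfold glue
    rw [if_neg (fun h' => hv (hσ h'))]
  · rw [upIter_eq_zero c j _ (by omega), upIter_eq_zero c j _ (by omega)]

omit [CharZero K] in
theorem upIter_shift_glue (v : V) (f k : Finset V → K) (j : ℕ) {τ : Finset V} (hv : v ∉ τ) :
    (up c)^[j] (shift v (glue v f k)) τ = (up c)^[j] k τ := by
  by_cases h : j ≤ τ.card
  · refine upIter_congr c j (i := τ.card - j) (by omega) fun σ hσ _ => ?_
    unfold shift glue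
    rw [if_pos (Finset.mem_insert_self v σ), Finset.erase_insert (fun h' => hv (hσ h'))]
  · rw [upIter_eq_zero c j _ (by omega), upIter_eq_zero c j _ (by omega)]

/-- Surjectivity for the Boolean lattice. -/
theorem boolean_surjective (F : Finset V) (hc : ∀ v ∈ F, c v ≠ 0) :
    ∀ i j : ℕ, F.card ≤ 2 * i + j → ∀ g : Finset V → K, ∃ f : Finset V → K,
      ∀ τ, τ ⊆ F → τ.card = i + j → (up c)^[j] f τ = g τ := by
  induction F using Finset.induction_on with
  | empty =>
    intro i j hij g
    refine ⟨g, fun τ hτ hcard => ?_⟩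
    rw [Finset.subset_empty.1 hτ, Finset.card_empty] at hcard
    have hj : j = 0 := by omega
    subst hj
    rfl
  | insert v F hv ih =>
    intro i j hij g
    have ih' := ih fun w hw => hc w (Finset.mem_insert_of_mem hw)
    have hcv : c v ≠ 0 := hc v (Finset.mem_insert_self v F)
    rw [Finset.card_insert_of_notMem hv] at hij
    rcases j with _ | j
    · exact ⟨g, fun τ _ _ => rfl⟩
    have hj0 : (j + 1 : K) ≠ 0 := by exact_mod_cast Nat.succ_ne_zero j
    have ha0 : (j + 1 : K) * c v ≠ 0 := mul_ne_zero hj0 hcv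
    -- it suffices to treat the two parts
    suffices H : ∃ f k : Finset V → K,
        (∀ τ, τ ⊆ F → τ.card = i + (j + 1) → (up c)^[j + 1] f τ = g τ) ∧
        (∀ τ, τ ⊆ F → τ.card = i + j →
          (up c)^[j + 1] k τ + (j + 1 : K) * c v * (up c)^[j] f τ = g (insert v τ)) by
      obtain ⟨f, k, h1, h2⟩ := H
      refine ⟨glue v f k, fun τ hτ hcard => ?_⟩
      by_cases hvτ : v ∈ τ
      · have h3 : insert v (τ.erase v) = τ := Finset.insert_erase hvτ
        have h4 := Finset.card_insert_of_notMem (Finset.notMem_erase v τ)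
        rw [h3] at h4
        have h5 : τ.erase v ⊆ F := by
          intro w hw
          rcases Finset.mem_insert.1 (hτ (Finset.mem_of_mem_erase hw)) with h | h
          · exact absurd h (Finset.ne_of_mem_erase hw)
          · exact h
        have h6 := h2 (τ.erase v) h5 (by omega)
        rw [h3] at h6
        rw [← h6]
        conv_lhs => rw [← h3]
        rw [upIter_insert c v j _ (Finset.notMem_erase v τ),
          upIter_glue c v f k j (Finset.notMem_erase v τ),
          upIter_shift_glue c v f k (j + 1) (Finset.notMem_erase v τ)]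
      · rw [upIter_glue c v f k (j + 1) hvτ]
        refine h1 τ (fun w hw => ?_) hcard
        rcases Finset.mem_insert.1 (hτ hw) with h | h
        · exact absurd (h ▸ hw) hvτ
        · exact h
    rcases i with _ | i
    · -- `i = 0`
      obtain ⟨f, hf⟩ := ih' 0 j (by omega) fun τ => ((j + 1 : K) * c v)⁻¹ * g (insert v τ)
      refine ⟨f, 0, fun τ hτ hcard => ?_, fun τ hτ hcard => ?_⟩
      · have := Finset.card_le_card hτ
        omega
      · rw [hf τ hτ hcard, upIter_zero, mul_inv_cancel_left₀ ha0]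
        simp
    by_cases hcase : F.card + 2 ≤ 2 * (i + 1) + (j + 1)
    · obtain ⟨f, hf⟩ := ih' (i + 1) (j + 1) (by omega) g
      obtain ⟨k, hk⟩ := ih' i (j + 1) (by omega)
        fun τ => g (insert v τ) - (j + 1 : K) * c v * (up c)^[j] f τ
      refine ⟨f, k, hf, fun τ hτ hcard => ?_⟩
      rw [hk τ hτ (by omega)]
      ring
    · obtain ⟨f, hf⟩ := ih' (i + 1) j (by omega) fun τ => ((j + 1 : K) * c v)⁻¹ * g (insert v τ)
      obtain ⟨k, hk⟩ := ih' i (j + 2) (by omega)
        fun τ => (j + 1 : K) * c v * ((up c)^[j + 1] f τ - g τ)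
      refine ⟨f + (-((j + 1 : K) * c v)⁻¹) • up c k, k, fun τ hτ hcard => ?_,
        fun τ hτ hcard => ?_⟩
      · rw [upIter_add, upIter_smul, ← Function.iterate_succ_apply, Pi.add_apply, Pi.smul_apply,
          hk τ hτ (by omega), smul_eq_mul]
        field_simp
        ring
      · rw [upIter_add, upIter_smul, ← Function.iterate_succ_apply, Pi.add_apply, Pi.smul_apply,
          hf τ hτ (by omega), smul_eq_mul]
        field_simp
        ring

/-- Surjectivity for the relative complexes `(2^F, 2^σ)`. -/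
theorem relative_surjective (σ F : Finset V) (hσF : σ ⊆ F) (hc : ∀ v ∈ F, c v ≠ 0) :
    ∀ i j : ℕ, F.card + 1 ≤ 2 * i + j → ∀ g : Finset V → K, ∃ f : Finset V → K,
      (∀ τ, τ ⊆ σ → f τ = 0) ∧
      ∀ τ, τ ⊆ F → ¬ τ ⊆ σ → τ.card = i + j → (up c)^[j] f τ = g τ := by
  induction h : (F \ σ).card generalizing F with
  | zero =>
    intro i j _ g
    have : F ⊆ σ := Finset.sdiff_eq_empty_iff_subset.1 (Finset.card_eq_zero.1 h)
    exact ⟨0, fun _ _ => rfl, fun τ hτ hτ' _ => absurd (hτ.trans this) hτ'⟩
  | succ r ih =>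
    intro i j hij g
    obtain ⟨v, hv⟩ := Finset.card_pos.1 (by omega : 0 < (F \ σ).card)
    have hv' := Finset.mem_sdiff.1 hv
    obtain ⟨hvF, hvσ⟩ := hv'
    have hcardF : (F.erase v).card + 1 = F.card := Finset.card_erase_add_one hvF
    have hF' : (F.erase v) \ σ = (F \ σ).erase v := by
      ext w; simp only [Finset.mem_sdiff, Finset.mem_erase]; tauto
    obtain ⟨f, hf0, hf⟩ := ih (F.erase v) (fun w hw => Finset.mem_erase.2
      ⟨fun h' => hvσ (h' ▸ hw), hσF hw⟩) (fun w hw => hc w (Finset.mem_of_mem_erase hw))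
      (by rw [hF', Finset.card_erase_of_mem hv, h]; rfl) i j (by omega) g
    rcases i with _ | i
    · exact ⟨0, fun _ _ => rfl, fun τ hτ _ hcard => by
        have := Finset.card_le_card hτ
        omega⟩
    obtain ⟨k, hk⟩ := boolean_surjective c (F.erase v)
      (fun w hw => hc w (Finset.mem_of_mem_erase hw)) i j (by omega)
      fun τ => g (insert v τ) - (up c)^[j] (glue v f 0) (insert v τ)
    refine ⟨glue v f 0 + glue v 0 k, fun τ hτ => ?_, fun τ hτF hτσ hcard => ?_⟩
    · have hvτ : v ∉ τ := fun h' => hvσ (hτ h')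
      rw [Pi.add_apply]
      unfold glue
      rw [if_neg hvτ, if_neg hvτ, hf0 τ hτ]
      simp
    · rw [upIter_add, Pi.add_apply]
      by_cases hvτ : v ∈ τ
      · have h3 : insert v (τ.erase v) = τ := Finset.insert_erase hvτ
        have h4 := Finset.card_insert_of_notMem (Finset.notMem_erase v τ)
        rw [h3] at h4
        have h5 : (up c)^[j] (glue v 0 k) (insert v (τ.erase v)) = (up c)^[j] k (τ.erase v) := by
          rcases j with _ | j
          · change glue v 0 k (insert v (τ.erase v)) = k (τ.erase v)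
            unfold glue
            rw [if_pos (Finset.mem_insert_self _ _), Finset.erase_insert (Finset.notMem_erase v τ)]
          · rw [upIter_insert c v j _ (Finset.notMem_erase v τ),
              upIter_shift_glue c v 0 k (j + 1) (Finset.notMem_erase v τ),
              upIter_glue c v 0 k j (Finset.notMem_erase v τ), upIter_zero]
            simp
        have h6 := hk (τ.erase v) (Finset.erase_subset_erase v hτF) (by omega)
        rw [← h5, h3] at h6
        rw [h6]
        ring
      · rw [upIter_glue c v f 0 j hvτ, upIter_glue c v 0 k j hvτ, upIter_zero,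
          hf τ (Finset.subset_erase.2 ⟨hτF, hvτ⟩) hτσ hcard]
        simp

/-- Surjectivity for forests of facets. -/
theorem forest_surjective (S : Finset (Finset V))
    (hS : ∀ T ⊆ S, T.Nonempty → ∃ F ∈ T, T = {F} ∨ ∃ σ, σ ⊆ F ∧
      ∀ τ, τ ⊆ F → ((∃ F' ∈ T, F' ≠ F ∧ τ ⊆ F') ↔ τ ⊆ σ))
    (m : ℕ) (hm : ∀ F ∈ S, F.card = m) (hc : ∀ v, c v ≠ 0) (i j : ℕ) (hij : m + 1 ≤ 2 * i + j) :
    ∀ g : Finset V → K, ∃ f : Finset V → K,
      ∀ τ, (∃ F ∈ S, τ ⊆ F) → τ.card = i + j → (up c)^[j] f τ = g τ := by
  induction h : S.card generalizing S with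
  | zero =>
    intro g
    rw [Finset.card_eq_zero] at h
    subst h
    exact ⟨0, fun τ ⟨F, hF, _⟩ => absurd hF (Finset.notMem_empty F)⟩
  | succ r ih =>
    intro g
    obtain ⟨F, hF, hcase⟩ := hS S subset_rfl (Finset.card_pos.1 (by omega))
    rcases hcase with hSF | ⟨σ, hσF, hσ⟩
    · obtain ⟨f, hf⟩ := boolean_surjective c F (fun v _ => hc v) i j
        (by rw [hm F hF]; omega) g
      refine ⟨f, fun τ ⟨F', hF', hτ⟩ hcard => ?_⟩
      rw [hSF, Finset.mem_singleton] at hF'
      subst hF'
      exact hf τ hτ hcard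
    · obtain ⟨f, hf⟩ := ih (S.erase F) (fun T hT => hS T (hT.trans (Finset.erase_subset _ _)))
        (fun F' hF' => hm F' (Finset.mem_of_mem_erase hF'))
        (by rw [Finset.card_erase_of_mem hF, h]; rfl) g
      obtain ⟨k, hk0, hk⟩ := relative_surjective c σ F hσF (fun v _ => hc v) i j
        (by rw [hm F hF]; omega) fun τ => g τ - (up c)^[j] f τ
      let k' : Finset V → K := fun ρ => if ρ ⊆ F then k ρ else 0
      have hk' : ∀ F' ∈ S, F' ≠ F → ∀ ρ, ρ ⊆ F' → k' ρ = 0 := by
        intro F' hF' hne ρ hρ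
        simp only [k']
        split_ifs with h1
        · exact hk0 ρ ((hσ ρ h1).1 ⟨F', hF', hne, hρ⟩)
        · rfl
      refine ⟨f + k', fun τ ⟨F', hF', hτ⟩ hcard => ?_⟩
      rw [upIter_add, Pi.add_apply]
      by_cases h1 : ∃ F'' ∈ S, F'' ≠ F ∧ τ ⊆ F''
      · obtain ⟨F'', hF'', hne, hτ''⟩ := h1
        rw [hf τ ⟨F'', Finset.mem_erase.2 ⟨hne, hF''⟩, hτ''⟩ hcard,
          upIter_congr c j (i := i) (f := k') (g := 0) hcard
            (fun ρ hρ _ => hk' F'' hF'' hne ρ (hρ.trans hτ'')), upIter_zero]
        simp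
      · have hFF : F' = F := by
          by_contra hne
          exact h1 ⟨F', hF', hne, hτ⟩
        subst hFF
        have h2 : ¬ τ ⊆ σ := fun h' => h1 ((hσ τ hτ).2 h')
        rw [upIter_congr c j (i := i) (f := k') (g := k) hcard
            (fun ρ hρ _ => by simp only [k']; rw [if_pos (hρ.trans hτ)]), hk τ hτ h2 hcard]
        ring

end Model

/-! ### Combinatorics of forests -/

section Forest

variable {n : ℕ}

theorem facets_antichain {Δ : Set (Finset (Fin n))} {F G : Finset (Fin n)} (hF : F ∈ Facets Δ)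
    (hG : G ∈ Facets Δ) (h : F ⊆ G) : G = F := hF.2 G hG.1 h

theorem facets_generated {Δ S : Set (Finset (Fin n))} (hS : S ⊆ Facets Δ) :
    Facets (Generated S) = S := by
  ext F
  constructor
  · rintro ⟨⟨G, hG, hFG⟩, hmax⟩
    have := hmax G ⟨G, hG, subset_rfl⟩ hFG
    rwa [← this]
  · intro hF
    refine ⟨⟨F, hF, subset_rfl⟩, ?_⟩
    rintro G ⟨H, hH, hGH⟩ hFG
    have := facets_antichain (hS hF) (hS hH) (hFG.trans hGH)
    subst this
    exact hGH.antisymm hFG

theorem exists_facet {Δ : Set (Finset (Fin n))} {σ : Finset (Fin n)} (hσ : σ ∈ Δ) :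
    ∃ F ∈ Facets Δ, σ ⊆ F := by
  obtain ⟨F, hF, hmax⟩ := (Set.toFinite Δ).exists_le_maximal hσ
  refine ⟨F, ⟨hmax.prop, fun G hG hFG => ?_⟩, hF⟩
  exact (hmax.le_of_ge hG hFG).antisymm hFG

/-- Every nonempty set of facets of a forest has a removable member. -/
theorem exists_leaf {Δ : Set (Finset (Fin n))} (hΔ : IsForest Δ) (T : Finset (Finset (Fin n)))
    (hT : (T : Set (Finset (Fin n))) ⊆ Facets Δ) (hne : T.Nonempty) :
    ∃ F ∈ T, T = {F} ∨ ∃ σ, σ ⊆ F ∧
      ∀ τ, τ ⊆ F → ((∃ F' ∈ T, F' ≠ F ∧ τ ⊆ F') ↔ τ ⊆ σ) := by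
  obtain ⟨F₀, hF₀⟩ := hne
  let C : Set (Finset (Fin n)) := {G | G ∈ Facets Δ ∧ SameComponent Δ F₀ G}
  have hC : Facets (Component Δ F₀) = C := facets_generated (Δ := Δ) (fun G hG => hG.1)
  let S : Set (Finset (Fin n)) := {G | G ∈ T ∧ SameComponent Δ F₀ G}
  have hSC : S ⊆ C := fun G hG => ⟨hT hG.1, hG.2⟩
  obtain ⟨F, hF, hleaf⟩ := (hΔ F₀ (hT hF₀)).2 S (by rw [hC]; exact hSC)
    ⟨F₀, hF₀, Relation.ReflTransGen.refl⟩
  rw [facets_generated (Δ := Δ) (hSC.trans fun G hG => hG.1)] at hF hleaf
  -- members of `T` meeting `F` are in `S`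
  have hmeet : ∀ G ∈ T, (F ∩ G).Nonempty → G ∈ S := fun G hG hmt =>
    ⟨hG, hF.2.tail ⟨hT hG, hmt⟩⟩
  have hdisj : ∀ G ∈ T, G ∉ S → F ∩ G = ∅ := fun G hG hGS =>
    Finset.not_nonempty_iff_eq_empty.1 fun h => hGS (hmeet G hG h)
  refine ⟨F, hF.1, ?_⟩
  by_cases hTF : T = {F}
  · exact Or.inl hTF
  right
  rcases hleaf with honly | ⟨G, hG, hGF, hleaf⟩
  · refine ⟨∅, Finset.empty_subset F, fun τ hτ => ⟨?_, fun h => ?_⟩⟩
    · rintro ⟨F', hF', hne, hτ'⟩
      have : F' ∉ S := fun h => hne (honly F' h)
      rw [← hdisj F' hF' this]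
      exact Finset.subset_inter hτ hτ'
    · rw [Finset.subset_empty] at h
      subst h
      have : ∃ F' ∈ T, F' ≠ F := by
        by_contra hcon
        push Not at hcon
        exact hTF (Finset.eq_singleton_iff_unique_mem.2 ⟨hF.1, hcon⟩)
      obtain ⟨F', hF', hne⟩ := this
      exact ⟨F', hF', hne, Finset.empty_subset _⟩
  · refine ⟨F ∩ G, Finset.inter_subset_left, fun τ hτ => ⟨?_, fun h => ?_⟩⟩
    · rintro ⟨F', hF', hne, hτ'⟩
      by_cases hS' : F' ∈ S
      · exact (Finset.subset_inter hτ hτ').trans (hleaf F' hS' hne)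
      · have h1 : τ ⊆ F ∩ F' := Finset.subset_inter hτ hτ'
        rw [hdisj F' hF' hS'] at h1
        rw [Finset.subset_empty.1 h1]
        exact Finset.empty_subset _
    · exact ⟨G, hG.1, hGF, h.trans Finset.inter_subset_right⟩

end Forest

/-! ### The algebra -/

section Algebra

variable {n : ℕ} {K : Type u} [Field K]

/-- The exponent vector of the squarefree monomial with support `σ`. -/
noncomputable def ind (σ : Finset (Fin n)) : Fin n →₀ ℕ := ∑ v ∈ σ, Finsupp.single v 1

theorem ind_apply (σ : Finset (Fin n)) (v : Fin n) : ind σ v = if v ∈ σ then 1 else 0 := by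
  unfold ind
  rw [Finsupp.finsetSum_apply]
  simp [Finsupp.single_apply]

theorem ind_injective : Function.Injective (ind : Finset (Fin n) → _) := by
  intro σ τ h
  ext v
  have := DFunLike.congr_fun h v
  rw [ind_apply, ind_apply] at this
  by_cases h1 : v ∈ σ <;> by_cases h2 : v ∈ τ <;> simp_all

theorem prod_X_eq (σ : Finset (Fin n)) :
    (∏ i ∈ σ, X i : MvPolynomial (Fin n) K) = monomial (ind σ) 1 := by
  unfold ind
  rw [monomial_sum_one]
  rfl

theorem degree_ind (σ : Finset (Fin n)) : (ind σ).degree = σ.card := by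
  unfold ind
  rw [map_sum]
  simp

theorem mem_idealOf {Δ : Set (Finset (Fin n))} (hΔ : IsComplex Δ) (p : MvPolynomial (Fin n) K) :
    p ∈ idealOf K Δ ↔ ∀ σ ∈ Δ, coeff (ind σ) p = 0 := by
  have hI : idealOf K Δ = Ideal.span ((fun s => monomial s (1 : K)) ''
      ({s | ∃ σ, σ ∉ Δ ∧ s = ind σ} ∪ {s | ∃ i, s = Finsupp.single i 2})) := by
    unfold idealOf
    rw [← Ideal.span_union]
    congr 1
    ext q
    constructor
    · rintro (⟨σ, hσ, rfl⟩ | ⟨i, rfl⟩)
      · exact ⟨ind σ, Or.inl ⟨σ, hσ, rfl⟩, (prod_X_eq σ).symm⟩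
      · exact ⟨Finsupp.single i 2, Or.inr ⟨i, rfl⟩, (X_pow_eq_monomial).symm⟩
    · rintro ⟨s, ⟨σ, hσ, rfl⟩ | ⟨i, rfl⟩, rfl⟩
      · exact Or.inl ⟨σ, hσ, (prod_X_eq σ).symm⟩
      · exact Or.inr ⟨i, (X_pow_eq_monomial).symm⟩
  rw [hI, mem_ideal_span_monomial_image]
  constructor
  · intro h σ hσ
    by_contra hcoeff
    obtain ⟨s, hs, hle⟩ := h (ind σ) (mem_support_iff.2 hcoeff)
    rcases hs with ⟨τ, hτ, rfl⟩ | ⟨i, rfl⟩
    · refine hτ (hΔ σ hσ τ fun v hv => ?_)
      have := hle v
      rw [ind_apply, ind_apply, if_pos hv] at this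
      by_contra hv'
      rw [if_neg hv'] at this
      omega
    · have := hle i
      rw [ind_apply, Finsupp.single_eq_same] at this
      split_ifs at this <;> omega
  · intro h m hm
    by_cases h2 : ∃ i, 2 ≤ m i
    · obtain ⟨i, hi⟩ := h2
      exact ⟨Finsupp.single i 2, Or.inr ⟨i, rfl⟩, Finsupp.single_le_iff.2 hi⟩
    · push Not at h2
      have hm' : m = ind m.support := by
        ext v
        rw [ind_apply]
        have := h2 v
        split_ifs with hv
        · rw [Finsupp.mem_support_iff] at hv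
          omega
        · simpa using hv
      refine ⟨ind m.support, Or.inl ⟨m.support, fun hΔm => ?_, rfl⟩, hm'.symm.le⟩
      rw [mem_support_iff] at hm
      exact hm (by rw [hm']; exact h _ hΔm)

/-- The squarefree coefficients. -/
noncomputable def coeffs (p : MvPolynomial (Fin n) K) : Finset (Fin n) → K := fun σ =>
  coeff (ind σ) p

theorem coeffs_linear_mul (c : Fin n → K) (p : MvPolynomial (Fin n) K) :
    coeffs ((∑ v, C (c v) * X v) * p) = up c (coeffs p) := by
  funext τ
  unfold coeffs up
  rw [Finset.sum_mul, coeff_sum]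
  rw [← Finset.sum_subset (Finset.subset_univ τ)]
  · refine Finset.sum_congr rfl fun v hv => ?_
    rw [mul_assoc, coeff_C_mul, coeff_X_mul', if_pos]
    · congr 2
      ext w
      rw [Finsupp.tsub_apply, ind_apply, ind_apply, Finsupp.single_apply]
      by_cases hvw : v = w
      · subst hvw
        simp [hv]
      · have : w ≠ v := fun h => hvw h.symm
        simp [hvw, this]
    · rw [Finsupp.mem_support_iff, ind_apply, if_pos hv]
      exact one_ne_zero
  · intro v _ hv
    rw [mul_assoc, coeff_C_mul, coeff_X_mul', if_neg, mul_zero]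
    rw [Finsupp.mem_support_iff, ind_apply, if_neg hv]
    simp

theorem coeffs_pow_mul (c : Fin n → K) (j : ℕ) (p : MvPolynomial (Fin n) K) :
    coeffs ((∑ v, C (c v) * X v) ^ j * p) = (up c)^[j] (coeffs p) := by
  induction j with
  | zero => simp
  | succ j ih =>
    rw [pow_succ', mul_assoc, coeffs_linear_mul, ih, Function.iterate_succ_apply']

theorem coeffs_eq_zero {p : MvPolynomial (Fin n) K} {i : ℕ} (hp : p.IsHomogeneous i)
    {σ : Finset (Fin n)} (hσ : σ.card ≠ i) : coeffs p σ = 0 := by
  apply hp.coeff_eq_zero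
  rwa [degree_ind]

theorem linear_homogeneous (c : Fin n → K) (j : ℕ) :
    ((∑ v, C (c v) * X v) ^ j : MvPolynomial (Fin n) K).IsHomogeneous j := by
  have h1 : (∑ v, C (c v) * X v : MvPolynomial (Fin n) K).IsHomogeneous 1 := by
    refine IsHomogeneous.sum _ _ _ fun v _ => ?_
    have := (isHomogeneous_C (Fin n) (c v)).mul (isHomogeneous_X K v)
    simpa using this
  simpa using h1.pow j

theorem fullRank [CharZero K] {Δ : Set (Finset (Fin n))} (hΔ : IsComplex Δ) (hpure : IsPure Δ)
    (hforest : IsForest Δ) (c : Fin n → K) (hc : ∀ v, c v ≠ 0) : FullRank (idealOf K Δ) c := by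
  classical
  obtain ⟨m, hm⟩ := hpure
  intro i j
  by_cases hij : 2 * i + j ≤ m
  · left
    rintro a ⟨p, hp, rfl⟩ h
    unfold linForm at h
    rw [← map_pow, ← map_mul, Ideal.Quotient.eq_zero_iff_mem, mem_idealOf hΔ] at h
    rw [Ideal.Quotient.eq_zero_iff_mem, mem_idealOf hΔ]
    intro σ hσ
    by_cases hcard : σ.card = i
    · obtain ⟨F, hF, hσF⟩ := exists_facet hσ
      refine boolean_injective c F (fun v _ => hc v) i j (by rw [hm F hF]; exact hij) (coeffs p)
        (fun τ hτ _ => ?_) σ hσF hcard
      rw [← coeffs_pow_mul]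
      exact h τ (hΔ F hF.1 τ hτ)
    · exact coeffs_eq_zero hp hcard
  · right
    rintro b ⟨q, hq, rfl⟩
    obtain ⟨f, hf⟩ := forest_surjective c (Set.toFinite (Facets Δ)).toFinset
      (fun T hT hne => exists_leaf hforest T (fun F hF => by simpa using hT hF) hne) m
      (fun F hF => hm F (by simpa using hF)) hc i j (by omega) (coeffs q)
    let p : MvPolynomial (Fin n) K :=
      ∑ σ ∈ (Finset.univ : Finset (Finset (Fin n))).filter (fun σ => σ.card = i),
        monomial (ind σ) (f σ)
    have hp : p.IsHomogeneous i := by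
      refine IsHomogeneous.sum _ _ _ fun σ hσ => isHomogeneous_monomial _ ?_
      rw [degree_ind]
      exact (Finset.mem_filter.1 hσ).2
    have hpf : ∀ σ : Finset (Fin n), σ.card = i → coeffs p σ = f σ := by
      intro σ hσ
      simp only [coeffs, p]
      rw [coeff_sum, Finset.sum_eq_single σ]
      · rw [coeff_monomial, if_pos rfl]
      · intro τ _ hne
        rw [coeff_monomial, if_neg (fun h => hne (ind_injective h))]
      · intro h
        exact absurd (Finset.mem_filter.2 ⟨Finset.mem_univ σ, hσ⟩) h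
    refine ⟨Ideal.Quotient.mk _ p, ⟨p, hp, rfl⟩, ?_⟩
    unfold linForm
    rw [← map_pow, ← map_mul, Ideal.Quotient.eq, mem_idealOf hΔ]
    intro τ hτ
    rw [coeff_sub, sub_eq_zero]
    change coeffs _ τ = coeffs q τ
    by_cases hcard : τ.card = i + j
    · rw [coeffs_pow_mul, upIter_congr c j hcard (fun σ _ hσ => hpf σ hσ)]
      obtain ⟨F, hF, hτF⟩ := exists_facet hτ
      exact hf τ ⟨F, by simpa using hF, hτF⟩ hcard
    · rw [coeffs_eq_zero hq hcard]
      refine coeffs_eq_zero ((linear_homogeneous c j).mul hp) ?_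
      omega

/-- **Main theorem.** Over a field of characteristic zero, the algebra
`A(Δ) = S / (N(Δ) + (x_1^2, ..., x_n^2))` of a pure simplicial forest `Δ` has the strong Lefschetz
property; in fact the maps `× L^j : A_i → A_{i+j}` have full rank for every linear form `L` with all
coefficients nonzero, such as `x_1 + ... + x_n`. -/
theorem result [CharZero K] (Δ : Set (Finset (Fin n))) (hΔ : IsComplex Δ) (hpure : IsPure Δ)
    (hforest : IsForest Δ) :
    HasSLP (idealOf K Δ) ∧ ∀ c : Fin n → K, (∀ v, c v ≠ 0) → FullRank (idealOf K Δ) c := by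
  have h := fullRank (K := K) hΔ hpure hforest
  refine ⟨⟨∏ v, X v, Finset.prod_ne_zero_iff.2 fun v _ => X_ne_zero v, fun c hc => h c fun v hv =>
    hc ?_⟩, h⟩
  rw [map_prod]
  exact Finset.prod_eq_zero (Finset.mem_univ v) (by rw [eval_X, hv])

end Algebra

end Pool.Agent.Results.MP_cb4cd2_al.StrongLefschetz
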